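import Mathlib

/-!
# Line arrangements in the plane, their discrepancy, best approximations and sails

An arrangement of two lines through the origin is given by two nonparallel vectors `u`, `v` spanning
the lines; an integer arrangement is given by two nonparallel primitive integer vectors.
-/

set_option autoImplicit false

open Finset

namespace Q272.SA

/-- The determinant of `u` and `p`; as a function of `p` it is a linear form vanishing exactly on
the line through `u` (for `u ≠ 0`). -/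
def lin (u p : ℝ × ℝ) : ℝ := u.1 * p.2 - u.2 * p.1

/-- The coefficients of `x²`, `xy`, `y²` of the Markov-Davenport form
`lin u (x, y) * lin v (x, y) / lin u v` of the arrangement of the lines through `u` and `v`. -/
noncomputable def mdForm (u v : ℝ × ℝ) : Fin 3 → ℝ :=
  fun i => (![u.2 * v.2, -(u.1 * v.2 + u.2 * v.1), u.1 * v.1] : Fin 3 → ℝ) i / lin u v

/-- The largest absolute value of the three coefficients of a binary quadratic form. -/
noncomputable def maxCoeff (c : Fin 3 → ℝ) : ℝ := max |c 0| (max |c 1| |c 2|)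

/-- The discrepancy `ρ` of the arrangements given by `u, v` and by `u', v'`. -/
noncomputable def discrepancy (u v u' v' : ℝ × ℝ) : ℝ :=
  min (maxCoeff (mdForm u v + mdForm u' v')) (maxCoeff (mdForm u v - mdForm u' v'))

/-- An integer vector as a point of the plane. -/
def toR (v : ℤ × ℤ) : ℝ × ℝ := ((v.1 : ℝ), (v.2 : ℝ))

/-- `v₁, v₂` are primitive integer vectors on the two lines of an integer arrangement of size at most
`N`. -/
def IsInteger (N : ℕ) (v₁ v₂ : ℤ × ℤ) : Prop :=
  IsCoprime v₁.1 v₁.2 ∧ IsCoprime v₂.1 v₂.2 ∧ lin (toR v₁) (toR v₂) ≠ 0 ∧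
    |v₁.1| ≤ N ∧ |v₁.2| ≤ N ∧ |v₂.1| ≤ N ∧ |v₂.2| ≤ N

/-- The integer arrangement with the primitive vectors `v₁, v₂` is a best approximation of size at
most `N` of the arrangement of the lines through `e₁` and `e₂`. -/
def IsBest (e₁ e₂ : ℝ × ℝ) (N : ℕ) (v₁ v₂ : ℤ × ℤ) : Prop :=
  IsInteger N v₁ v₂ ∧ ∀ w₁ w₂ : ℤ × ℤ, IsInteger N w₁ w₂ →
    discrepancy e₁ e₂ (toR v₁) (toR v₂) ≤ discrepancy e₁ e₂ (toR w₁) (toR w₂)

/-- The arrangement of the lines through `e₁` and `e₂` is algebraic: these are the eigenlines of a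
matrix `A` in `GL(2, ℤ)` with irreducible characteristic polynomial; `a` and `b` are its two real
eigenvalues (and the two lines are different). -/
def Algebraic (e₁ e₂ : ℝ × ℝ) : Prop :=
  lin e₁ e₂ ≠ 0 ∧ ∃ A : Matrix (Fin 2) (Fin 2) ℤ, IsUnit A.det ∧
    Irreducible (A.map (Int.castRingHom ℚ)).charpoly ∧
    ∃ a b : ℝ, a ≠ b ∧
      (A.map (Int.castRingHom ℝ)).mulVec ![e₁.1, e₁.2] = a • ![e₁.1, e₁.2] ∧
      (A.map (Int.castRingHom ℝ)).mulVec ![e₂.1, e₂.2] = b • ![e₂.1, e₂.2]

/-- One of the four closed angles cut out by the lines through `e₁` and `e₂` (for `s, t = ± 1`). -/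
def angle (e₁ e₂ : ℝ × ℝ) (s t : ℝ) : Set (ℝ × ℝ) :=
  {p | 0 ≤ s * lin e₁ p ∧ 0 ≤ t * lin e₂ p}

/-- The sail of a closed angle: the boundary of the convex hull of its nonzero integer points. -/
def sail (C : Set (ℝ × ℝ)) : Set (ℝ × ℝ) :=
  frontier (convexHull ℝ {p | p ∈ C ∧ ∃ z : ℤ × ℤ, z ≠ 0 ∧ toR z = p})

/-- The geometric continued fraction of the arrangement of the lines through `e₁` and `e₂`: the union
of the four sails. -/
def fraction (e₁ e₂ : ℝ × ℝ) : Set (ℝ × ℝ) :=
  {p | ∃ s t : ℝ, (s = 1 ∨ s = -1) ∧ (t = 1 ∨ t = -1) ∧ p ∈ sail (angle e₁ e₂ s t)}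

/-- There are best approximations of size at most `N`, and each of them has a primitive vector which is
not on the geometric continued fraction. -/
def Exceptional (e₁ e₂ : ℝ × ℝ) (N : ℕ) : Prop :=
  (∃ v₁ v₂, IsBest e₁ e₂ N v₁ v₂) ∧ ∀ v₁ v₂, IsBest e₁ e₂ N v₁ v₂ →
    toR v₁ ∉ fraction e₁ e₂ ∨ toR v₂ ∉ fraction e₁ e₂

/-- a vector on the line `(5 + 2 φ) y = (2 + φ) x`, where `φ` is the golden ratio -/
noncomputable def e₁ : ℝ × ℝ := (5 + 2 * Real.goldenRatio, 2 + Real.goldenRatio)

/-- a vector on the conjugate line -/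
noncomputable def e₂ : ℝ × ℝ := (5 + 2 * Real.goldenConj, 2 + Real.goldenConj)

end Q272.SA
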