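import Pool.Agent.Q272.SA.Units

/-!
# The discrepancy in terms of the two embeddings
-/

set_option autoImplicit false

open Real
open scoped goldenRatio

namespace Q272.SA

/-- the coefficients of the product of the forms `lin u`, `lin v` -/
noncomputable def cf (u v : ℝ × ℝ) : Fin 3 → ℝ :=
  ![u.2 * v.2, -(u.1 * v.2 + u.2 * v.1), u.1 * v.1]

lemma plucker (e f v w : ℝ × ℝ) :
    lin e f * lin v w = lin e v * lin f w - lin f v * lin e w := by
  unfold lin
  ring

lemma md_diff (e f v w : ℝ × ℝ) (h : lin e f ≠ 0) (h' : lin v w ≠ 0) (i : Fin 3) :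
    (mdForm e f - mdForm v w) i =
      -(lin e v * lin e w * cf f f i + lin f v * lin f w * cf e e i
        - 2 * (lin e v * lin f w) * cf e f i) / (lin e f * (lin e f * lin v w)) := by
  have key : ∀ a b D E N : ℝ, D ≠ 0 → E ≠ 0 → a * E * D - b * D ^ 2 = -N →
      a / D - b / E = -N / (D * (D * E)) := by
    intro a b D E N hD hE hN
    rw [← hN]
    field_simp
  have e1 : (mdForm e f - mdForm v w) i = cf e f i / lin e f - cf v w i / lin v w := rfl
  rw [e1]
  apply key _ _ _ _ _ h h'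
  fin_cases i
  · simp only [cf, lin, Fin.zero_eta, Matrix.cons_val_zero]
    ring
  · simp only [cf, lin, Fin.mk_one, Matrix.cons_val_one, Matrix.cons_val_zero]
    ring
  · simp only [cf, lin, Fin.reduceFinMk, Matrix.cons_val]
    ring

lemma mdForm_swap (v w : ℝ × ℝ) : mdForm w v = - mdForm v w := by
  funext i
  have e1 : lin w v = - lin v w := by unfold lin; ring
  have e2 : cf w v i = cf v w i := by
    fin_cases i
    · simp only [cf, Fin.zero_eta, Matrix.cons_val_zero]; ring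
    · simp only [cf, Fin.mk_one, Matrix.cons_val_one, Matrix.cons_val_zero]; ring
    · simp only [cf, Fin.reduceFinMk, Matrix.cons_val]; ring
  show cf w v i / lin w v = -(cf v w i / lin v w)
  rw [e1, e2, div_neg]

/-- numerators of the three coefficients -/
noncomputable def N₀ (p₁ p₂ q₁ q₂ : ℝ) : ℝ :=
  (5 + 5 * ψ) * (p₁ * q₁) + (5 + 5 * φ) * (p₂ * q₂) - 10 * (p₁ * q₂)
noncomputable def N₁ (p₁ p₂ q₁ q₂ : ℝ) : ℝ :=
  -(24 + 22 * ψ) * (p₁ * q₁) - (24 + 22 * φ) * (p₂ * q₂) + 50 * (p₁ * q₂)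
noncomputable def N₂ (p₁ p₂ q₁ q₂ : ℝ) : ℝ :=
  (29 + 24 * ψ) * (p₁ * q₁) + (29 + 24 * φ) * (p₂ * q₂) - 62 * (p₁ * q₂)

noncomputable def big (p₁ p₂ q₁ q₂ : ℝ) : ℝ :=
  max |N₀ p₁ p₂ q₁ q₂| (max |N₁ p₁ p₂ q₁ q₂| |N₂ p₁ p₂ q₁ q₂|)

lemma abs_delta : |lin e₁ e₂| = √5 := by
  rw [lin_e₁_e₂, ← goldenRatio_sub_goldenConj, abs_sub_comm, abs_of_pos]
  have := goldenRatio_pos
  have := goldenConj_neg
  linarith

lemma delta_ne : lin e₁ e₂ ≠ 0 := by
  intro h
  have := abs_delta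
  rw [h, abs_zero] at this
  have h5 : (0 : ℝ) < √5 := by positivity
  linarith

lemma max_div_three (a b c d : ℝ) (hd : 0 < d) :
    max (|a| / d) (max (|b| / d) (|c| / d)) = max |a| (max |b| |c|) / d := by
  rw [max_div_div_right hd.le, max_div_div_right hd.le]

lemma maxCoeff_diff (v w : ℝ × ℝ) (h : lin v w ≠ 0) :
    maxCoeff (mdForm e₁ e₂ - mdForm v w) =
      big (lin e₁ v) (lin e₂ v) (lin e₁ w) (lin e₂ w) /
        (√5 * |lin e₁ v * lin e₂ w - lin e₂ v * lin e₁ w|) := by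
  have hP : lin e₁ e₂ * lin v w = lin e₁ v * lin e₂ w - lin e₂ v * lin e₁ w :=
    plucker _ _ _ _
  have hden : 0 < √5 * |lin e₁ v * lin e₂ w - lin e₂ v * lin e₁ w| := by
    rw [← hP]
    exact mul_pos (by positivity) (abs_pos.2 (mul_ne_zero delta_ne h))
  unfold maxCoeff big
  rw [md_diff _ _ _ _ delta_ne h, md_diff _ _ _ _ delta_ne h, md_diff _ _ _ _ delta_ne h, hP]
  rw [abs_div, abs_div, abs_div, abs_neg, abs_neg, abs_neg, abs_mul (lin e₁ e₂), abs_delta]
  rw [← max_div_three _ _ _ _ hden]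
  have hphi := phi_sq
  have hpsi := goldenConj_sq
  have hpp := phi_mul_psi
  have hs : φ + ψ = 1 := goldenRatio_add_goldenConj
  have a0 : cf e₂ e₂ 0 = 5 + 5 * ψ := by
    simp only [cf, e₂, Matrix.cons_val_zero]
    linear_combination hpsi
  have a1 : cf e₂ e₂ 1 = -(24 + 22 * ψ) := by
    simp only [cf, e₂, Matrix.cons_val_one, Matrix.cons_val_zero]
    linear_combination (-4) * hpsi
  have a2 : cf e₂ e₂ 2 = 29 + 24 * ψ := by
    simp only [cf, e₂, Matrix.cons_val]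
    linear_combination 4 * hpsi
  have b0 : cf e₁ e₁ 0 = 5 + 5 * φ := by
    simp only [cf, e₁, Matrix.cons_val_zero]
    linear_combination hphi
  have b1 : cf e₁ e₁ 1 = -(24 + 22 * φ) := by
    simp only [cf, e₁, Matrix.cons_val_one, Matrix.cons_val_zero]
    linear_combination (-4) * hphi
  have b2 : cf e₁ e₁ 2 = 29 + 24 * φ := by
    simp only [cf, e₁, Matrix.cons_val]
    linear_combination 4 * hphi
  have c0 : cf e₁ e₂ 0 = 5 := by
    simp only [cf, e₁, e₂, Matrix.cons_val_zero]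
    linear_combination hpp + 2 * hs
  have c1 : cf e₁ e₂ 1 = -25 := by
    simp only [cf, e₁, e₂, Matrix.cons_val_one, Matrix.cons_val_zero]
    linear_combination (-4) * hpp - 9 * hs
  have c2 : cf e₁ e₂ 2 = 31 := by
    simp only [cf, e₁, e₂, Matrix.cons_val]
    linear_combination 4 * hpp + 10 * hs
  rw [a0, a1, a2, b0, b1, b2, c0, c1, c2]
  unfold N₀ N₁ N₂
  congr 2
  · congr 1
    ring
  · congr 2
    · congr 1
      ring
  · congr 2
    ring

lemma maxCoeff_sum (v w : ℝ × ℝ) (h : lin v w ≠ 0) :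
    maxCoeff (mdForm e₁ e₂ + mdForm v w) =
      big (lin e₁ w) (lin e₂ w) (lin e₁ v) (lin e₂ v) /
        (√5 * |lin e₁ v * lin e₂ w - lin e₂ v * lin e₁ w|) := by
  have e1 : mdForm e₁ e₂ + mdForm v w = mdForm e₁ e₂ - mdForm w v := by
    rw [mdForm_swap v w, sub_neg_eq_add]
  have h' : lin w v ≠ 0 := by
    intro h0
    apply h
    unfold lin at *
    linarith
  rw [e1, maxCoeff_diff w v h']
  congr 2
  rw [← abs_neg]
  congr 1
  ring

/-- lower bound for the discrepancy -/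
lemma le_disc {v w : ℝ × ℝ} (h : lin v w ≠ 0) {m : ℝ}
    (h1 : m * (√5 * |lin e₁ v * lin e₂ w - lin e₂ v * lin e₁ w|) ≤
      big (lin e₁ v) (lin e₂ v) (lin e₁ w) (lin e₂ w))
    (h2 : m * (√5 * |lin e₁ w * lin e₂ v - lin e₂ w * lin e₁ v|) ≤
      big (lin e₁ w) (lin e₂ w) (lin e₁ v) (lin e₂ v)) :
    m ≤ discrepancy e₁ e₂ v w := by
  have hP : lin e₁ e₂ * lin v w = lin e₁ v * lin e₂ w - lin e₂ v * lin e₁ w :=
    plucker _ _ _ _
  have hden : 0 < √5 * |lin e₁ v * lin e₂ w - lin e₂ v * lin e₁ w| := by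
    rw [← hP]
    exact mul_pos (by positivity) (abs_pos.2 (mul_ne_zero delta_ne h))
  have e3 : |lin e₁ w * lin e₂ v - lin e₂ w * lin e₁ v| =
      |lin e₁ v * lin e₂ w - lin e₂ v * lin e₁ w| := by
    rw [← abs_neg]
    congr 1
    ring
  rw [e3] at h2
  unfold discrepancy
  rw [maxCoeff_sum v w h, maxCoeff_diff v w h]
  apply le_min
  · rwa [le_div_iff₀ hden]
  · rwa [le_div_iff₀ hden]

lemma disc_le {v w : ℝ × ℝ} (h : lin v w ≠ 0) {m : ℝ}
    (h1 : big (lin e₁ v) (lin e₂ v) (lin e₁ w) (lin e₂ w) ≤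
      m * (√5 * |lin e₁ v * lin e₂ w - lin e₂ v * lin e₁ w|)) :
    discrepancy e₁ e₂ v w ≤ m := by
  have hP : lin e₁ e₂ * lin v w = lin e₁ v * lin e₂ w - lin e₂ v * lin e₁ w :=
    plucker _ _ _ _
  have hden : 0 < √5 * |lin e₁ v * lin e₂ w - lin e₂ v * lin e₁ w| := by
    rw [← hP]
    exact mul_pos (by positivity) (abs_pos.2 (mul_ne_zero delta_ne h))
  unfold discrepancy
  rw [maxCoeff_diff v w h]
  exact (min_le_right _ _).trans (by rwa [div_le_iff₀ hden])

end Q272.SA
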