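import Pool.Agent.Q272.SA.Disc

/-!
# Lower bound for arrangements with both vectors on the sails
-/

set_option autoImplicit false

open Real
open scoped goldenRatio

namespace Q272.SA

lemma phi_gt : 1.618 < φ := by
  have h := phi_sq
  have h1 := one_lt_goldenRatio
  nlinarith

lemma phi_lt : φ < 1.6181 := by
  have h := phi_sq
  have h1 := one_lt_goldenRatio
  nlinarith

lemma le_big₀ (a b c d : ℝ) : |N₀ a b c d| ≤ big a b c d := le_max_left _ _
lemma le_big₁ (a b c d : ℝ) : |N₁ a b c d| ≤ big a b c d :=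
  (le_max_left _ _).trans (le_max_right _ _)
lemma le_big₂ (a b c d : ℝ) : |N₂ a b c d| ≤ big a b c d :=
  (le_max_right _ _).trans (le_max_right _ _)

/-- the coefficient of the product of the two forms -/
lemma cross_le (p₁ p₂ q₁ q₂ : ℝ) : 10 / 97 * |p₁ * q₂| ≤ big p₁ p₂ q₁ q₂ := by
  have h : 10 * (p₁ * q₂) = 62 * N₀ p₁ p₂ q₁ q₂ + 25 * N₁ p₁ p₂ q₁ q₂ + 10 * N₂ p₁ p₂ q₁ q₂ := by
    unfold N₀ N₁ N₂
    ring
  have h0 := abs_le.1 (le_big₀ p₁ p₂ q₁ q₂)
  have h1 := abs_le.1 (le_big₁ p₁ p₂ q₁ q₂)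
  have h2 := abs_le.1 (le_big₂ p₁ p₂ q₁ q₂)
  have h3 : |p₁ * q₂| ≤ 97 / 10 * big p₁ p₂ q₁ q₂ := by
    rw [abs_le]
    constructor <;> linarith
  linarith

lemma abs_phi_psi (j i : ℤ) : |φ ^ j * ψ ^ i| = φ ^ (j - i) := by
  rw [abs_mul, abs_psi_zpow, abs_of_pos (zpow_pos goldenRatio_pos _),
    ← zpow_add₀ goldenRatio_ne_zero]
  rfl

lemma abs_det_le (j i : ℤ) :
    |φ ^ j * ψ ^ i - ψ ^ j * φ ^ i| ≤ φ ^ (i - j) + (φ ^ (i - j))⁻¹ := by
  have h1 := abs_sub (φ ^ j * ψ ^ i) (φ ^ i * ψ ^ j)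
  rw [abs_phi_psi, abs_phi_psi, mul_comm (φ ^ i)] at h1
  have h2 : (φ ^ (i - j))⁻¹ = φ ^ (j - i) := by
    rw [← zpow_neg]
    congr 1
    ring
  rw [h2]
  linarith

lemma pow_le_zpow {a b : ℤ} (h : a ≤ b) : φ ^ a ≤ φ ^ b :=
  zpow_le_zpow_right₀ one_lt_goldenRatio.le h

/-- even sum of exponents -/
lemma even_bound {s : ℤ} (hs : Even s) :
    62 ≤ (29 + 24 * ψ) * φ ^ s + (29 + 24 * φ) * ψ ^ s := by
  have hpos : 0 < φ ^ s := zpow_pos goldenRatio_pos _
  have h1 : φ ^ s * ψ ^ s = 1 := by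
    rw [← mul_zpow, phi_mul_psi, hs.neg_one_zpow]
  have h2 : ψ ^ s = (φ ^ s)⁻¹ := eq_inv_of_mul_eq_one_right h1
  rw [h2]
  set t := φ ^ s with ht
  have ha : 0 < 29 + 24 * ψ := by
    rw [psi_eq]; have := phi_lt; linarith
  have hab : (29 + 24 * ψ) * (29 + 24 * φ) = 961 := by
    have h3 := phi_mul_psi
    have h4 : φ + ψ = 1 := goldenRatio_add_goldenConj
    linear_combination 576 * h3 + 696 * h4
  have h5 : 0 ≤ ((29 + 24 * ψ) * t - 31) ^ 2 := sq_nonneg _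
  have h6 : ((29 + 24 * ψ) * t + (29 + 24 * φ) * t⁻¹ - 62) * ((29 + 24 * ψ) * t) =
      ((29 + 24 * ψ) * t - 31) ^ 2 := by
    have : (29 + 24 * φ) * t⁻¹ * ((29 + 24 * ψ) * t) = 961 := by
      rw [← hab]
      field_simp
    linear_combination this
  have h7 : 0 < (29 + 24 * ψ) * t := mul_pos ha hpos
  rw [← h6] at h5
  have := nonneg_of_mul_nonneg_left h5 h7
  linarith

/-- odd sum of exponents -/
lemma odd_bound {s : ℤ} (hs : Odd s) :
    20 ≤ |(24 + 22 * ψ) * φ ^ s + (24 + 22 * φ) * ψ ^ s| := by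
  have hpos : 0 < φ ^ s := zpow_pos goldenRatio_pos _
  have h1 : φ ^ s * ψ ^ s = -1 := by
    rw [← mul_zpow, phi_mul_psi, hs.neg_one_zpow]
  have h2 : ψ ^ s = -(φ ^ s)⁻¹ := by
    have : φ ^ s * (-ψ ^ s) = 1 := by linarith
    have h3 := eq_inv_of_mul_eq_one_right this
    linarith
  rw [h2]
  have ha : 0 < 24 + 22 * ψ := by
    rw [psi_eq]; have := phi_lt; linarith
  have hb : 0 < 24 + 22 * φ := by
    have := phi_gt; linarith
  have h3 := phi_mul_psi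
  have h4 : φ + ψ = 1 := goldenRatio_add_goldenConj
  rcases le_or_gt s 1 with h | h
  · -- at most at `s = 1`
    have h5 : φ ^ s ≤ φ := by
      have := pow_le_zpow h
      rwa [zpow_one] at this
    have h6 : φ⁻¹ ≤ (φ ^ s)⁻¹ := inv_anti₀ hpos h5
    have h7 : (24 + 22 * ψ) * φ + (24 + 22 * φ) * (-φ⁻¹) = -20 := by
      rw [inv_goldenRatio]
      linear_combination 44 * h3 + 24 * h4
    have h8 : (24 + 22 * ψ) * φ ^ s + (24 + 22 * φ) * (-(φ ^ s)⁻¹) ≤ -20 := by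
      have := mul_le_mul_of_nonneg_left h5 ha.le
      have := mul_le_mul_of_nonneg_left h6 hb.le
      linarith
    rw [abs_of_nonpos (by linarith)]
    linarith
  · have h' : 3 ≤ s := by
      obtain ⟨k, hk⟩ := hs
      omega
    have h5 : φ ^ 3 ≤ φ ^ s := by
      have := pow_le_zpow h'
      exact_mod_cast this
    have hphi3 : φ ^ 3 = 2 * φ + 1 := by
      have := phi_sq
      linear_combination (φ + 1) * this
    rw [hphi3] at h5
    have h30 : 0 < 2 * φ + 1 := by have := phi_gt; linarith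
    have h6 : (φ ^ s)⁻¹ ≤ (2 * φ + 1)⁻¹ := inv_anti₀ h30 h5
    have h9 : (2 * φ + 1)⁻¹ = -(2 * ψ + 1) := by
      rw [inv_eq_iff_eq_inv, eq_comm, inv_eq_of_mul_eq_one_right]
      linear_combination (-4) * h3 - 2 * h4
    rw [h9] at h6
    have h7 : (24 + 22 * ψ) * (2 * φ + 1) + (24 + 22 * φ) * (2 * ψ + 1) = 30 := by
      linear_combination 88 * h3 + 70 * h4
    have h8 : 30 ≤ (24 + 22 * ψ) * φ ^ s + (24 + 22 * φ) * (-(φ ^ s)⁻¹) := by
      have := mul_le_mul_of_nonneg_left h5 ha.le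
      have := mul_le_mul_of_nonneg_left h6 hb.le
      linarith
    rw [abs_of_nonneg (by linarith)]
    linarith

lemma pow24 : (100000 : ℝ) < φ ^ 24 := by
  have h := phi_gt
  calc (100000 : ℝ) < 1.618 ^ 24 := by norm_num
    _ ≤ φ ^ 24 := pow_le_pow_left₀ (by norm_num) h.le _

/-- arrangements of two units -/
lemma lower (K : ℕ) (hK : 12 ≤ K) (j i : ℤ) (h1 : -(K : ℤ) ≤ j) (h4 : i ≤ K + 2) :
    19 / 2 / φ ^ (2 * K) * |φ ^ j * ψ ^ i - ψ ^ j * φ ^ i| ≤
      big (φ ^ j) (ψ ^ j) (φ ^ i) (ψ ^ i) := by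
  have hphi0 := goldenRatio_pos
  have hg := phi_gt
  have hl := phi_lt
  set T := φ ^ (2 * K) with hT
  have hT0 : 100000 < T := lt_of_lt_of_le pow24
    (pow_le_pow_right₀ one_lt_goldenRatio.le (by omega))
  have hTpos : 0 < T := by linarith
  have hdet := abs_det_le j i
  have hcross := cross_le (φ ^ j) (ψ ^ j) (φ ^ i) (ψ ^ i)
  rw [abs_phi_psi] at hcross
  have hinv : φ ^ (j - i) = (φ ^ (i - j))⁻¹ := by
    rw [← zpow_neg]; congr 1; ring
  rw [hinv] at hcross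
  set X := φ ^ (i - j) with hX
  have hX0 : 0 < X := zpow_pos hphi0 _
  have hτ : 0 < 19 / 2 / T := by positivity
  have hstep : 19 / 2 / T * |φ ^ j * ψ ^ i - ψ ^ j * φ ^ i| ≤ 19 / 2 / T * (X + X⁻¹) :=
    mul_le_mul_of_nonneg_left hdet hτ.le
  refine hstep.trans ?_
  -- small `X`
  by_cases hsmall : X ^ 2 ≤ 124
  · refine le_trans ?_ hcross
    have e : X + X⁻¹ = (X ^ 2 + 1) * X⁻¹ := by field_simp
    rw [e, ← mul_assoc]
    apply mul_le_mul_of_nonneg_right _ (inv_nonneg.2 hX0.le)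
    rw [div_mul_eq_mul_div, div_le_iff₀ hTpos]
    nlinarith
  push Not at hsmall
  have hX11 : 11 < X := by nlinarith
  have hdpos : 0 < i - j := by
    by_contra hcon
    push Not at hcon
    have := pow_le_zpow hcon
    rw [zpow_zero] at this
    linarith
  have hXinv : X⁻¹ < 1 / 11 := by
    rw [inv_lt_comm₀ hX0 (by norm_num)]
    linarith
  have hXinv0 : 0 < X⁻¹ := inv_pos.2 hX0
  have hTi : 19 / 2 / T * X⁻¹ ≤ 1 / 100 := by
    have : 19 / 2 / T ≤ 19 / 2 / 100000 := by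
      apply div_le_div_of_nonneg_left (by norm_num) (by norm_num) hT0.le
    calc _ ≤ 19 / 2 / 100000 * (1 / 11) := mul_le_mul this hXinv.le hXinv0.le (by norm_num)
      _ ≤ 1 / 100 := by norm_num
  have hsplit : φ ^ j * φ ^ i = φ ^ (j + i) := (zpow_add₀ goldenRatio_ne_zero _ _).symm
  have hsplit' : ψ ^ j * ψ ^ i = ψ ^ (j + i) := (zpow_add₀ goldenConj_ne_zero _ _).symm
  have habs : |φ ^ j * ψ ^ i| = X⁻¹ := by rw [abs_phi_psi, hinv]
  have hc := abs_le.1 habs.le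
  have hTnat : T = φ ^ ((2 * K : ℕ) : ℤ) := by rw [zpow_natCast]
  rcases Int.even_or_odd (j + i) with hev | hodd
  · -- even
    refine le_trans ?_ ((le_abs_self _).trans (le_big₂ _ _ _ _))
    unfold N₂
    rw [hsplit, hsplit']
    have h5 := even_bound hev
    have hXle : X ≤ T * (φ + 1) := by
      have h6 : X ≤ φ ^ ((2 * K : ℕ) + 2 : ℤ) := pow_le_zpow (by push_cast; omega)
      rw [zpow_add₀ goldenRatio_ne_zero, ← hTnat] at h6
      rw [← phi_sq]
      exact_mod_cast h6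
    have h7 : 19 / 2 / T * X ≤ 19 / 2 * (φ + 1) := by
      rw [div_mul_eq_mul_div, div_le_iff₀ hTpos]
      nlinarith
    rw [mul_add]
    have h8 : 19 / 2 * (φ + 1) ≤ 25 := by linarith
    have h9 : 62 * X⁻¹ ≤ 6 := by linarith
    linarith
  · refine le_trans ?_ (le_big₁ _ _ _ _)
    unfold N₁
    rw [hsplit, hsplit']
    have h5 := odd_bound hodd
    have hXle : X ≤ T * φ := by
      have h6 : X ≤ φ ^ ((2 * K : ℕ) + 1 : ℤ) := pow_le_zpow (by
        obtain ⟨k, hk⟩ := hodd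
        push_cast
        omega)
      rw [zpow_add₀ goldenRatio_ne_zero, ← hTnat, zpow_one] at h6
      exact h6
    have h7 : 19 / 2 / T * X ≤ 19 / 2 * φ := by
      rw [div_mul_eq_mul_div, div_le_iff₀ hTpos]
      nlinarith
    rw [mul_add]
    have h8 : 19 / 2 * φ ≤ 15.38 := by linarith
    have h9 : 50 * X⁻¹ ≤ 50 / 11 := by linarith
    have h10 := abs_sub_abs_le_abs_sub ((24 + 22 * ψ) * φ ^ (j + i) + (24 + 22 * φ) * ψ ^ (j + i))
      (50 * (φ ^ j * ψ ^ i))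
    have h11 : |50 * (φ ^ j * ψ ^ i)| = 50 * X⁻¹ := by
      rw [abs_mul, habs]
      norm_num
    rw [h11] at h10
    have h12 : |-(24 + 22 * ψ) * φ ^ (j + i) - (24 + 22 * φ) * ψ ^ (j + i) +
        50 * (φ ^ j * ψ ^ i)| = |(24 + 22 * ψ) * φ ^ (j + i) + (24 + 22 * φ) * ψ ^ (j + i) -
        50 * (φ ^ j * ψ ^ i)| := by
      rw [← abs_neg]
      congr 1
      ring
    rw [h12]
    linarith

end Q272.SA
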