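import Pool.Agent.Q272.SA.Size

/-!
# Exceptional sizes
-/

set_option autoImplicit false

open Real
open scoped goldenRatio

namespace Q272.SA

lemma finite_integer (N : ℕ) : {p : (ℤ × ℤ) × (ℤ × ℤ) | IsInteger N p.1 p.2}.Finite := by
  apply Set.Finite.subset (((Set.finite_Icc (-(N : ℤ)) N).prod (Set.finite_Icc (-(N : ℤ)) N)).prod
    ((Set.finite_Icc (-(N : ℤ)) N).prod (Set.finite_Icc (-(N : ℤ)) N)))
  rintro ⟨⟨a, b⟩, c, d⟩ ⟨-, -, -, h1, h2, h3, h4⟩
  simp only at h1 h2 h3 h4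
  exact ⟨⟨abs_le.1 h1, abs_le.1 h2⟩, abs_le.1 h3, abs_le.1 h4⟩

lemma exists_best (u u' : ℝ × ℝ) (N : ℕ) (h : ∃ v w, IsInteger N v w) :
    ∃ v w, IsBest u u' N v w := by
  obtain ⟨v, w, hvw⟩ := h
  obtain ⟨p, hp, hmin⟩ := Set.exists_min_image {p : (ℤ × ℤ) × (ℤ × ℤ) | IsInteger N p.1 p.2}
    (fun p => discrepancy u u' (toR p.1) (toR p.2)) (finite_integer N) ⟨(v, w), hvw⟩
  exact ⟨p.1, p.2, hp, fun w₁ w₂ hw => hmin (w₁, w₂) hw⟩

lemma big_unit {c c' : ℝ} (hc : c = 1 ∨ c = -1) (hc' : c' = 1 ∨ c' = -1) (a b x y : ℝ) :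
    big (c * a) (c * b) (c' * x) (c' * y) = big a b x y ∧
      |c * a * (c' * y) - c * b * (c' * x)| = |a * y - b * x| := by
  have h1 : |c * c'| = 1 := by
    rcases hc with rfl | rfl <;> rcases hc' with rfl | rfl <;> norm_num
  constructor
  · unfold big
    have e0 : N₀ (c * a) (c * b) (c' * x) (c' * y) = (c * c') * N₀ a b x y := by
      unfold N₀; ring
    have e1 : N₁ (c * a) (c * b) (c' * x) (c' * y) = (c * c') * N₁ a b x y := by
      unfold N₁; ring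
    have e2 : N₂ (c * a) (c * b) (c' * x) (c' * y) = (c * c') * N₂ a b x y := by
      unfold N₂; ring
    simp only [e0, e1, e2, abs_mul (c * c'), h1, one_mul]
  · have : c * a * (c' * y) - c * b * (c' * x) = (c * c') * (a * y - b * x) := by ring
    rw [this, abs_mul (c * c'), h1, one_mul]

theorem exceptional (K N : ℕ) (hK : 12 ≤ K) (h1 : 5.43 * φ ^ K ≤ N) (h2 : (N : ℝ) ≤ 5.95 * φ ^ K) :
    Exceptional e₁ e₂ N := by
  obtain ⟨v, w, hvw, hdisc⟩ := competitor K N hK h1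
  refine ⟨exists_best _ _ _ ⟨v, w, hvw⟩, ?_⟩
  intro v₁ v₂ hbest
  by_contra hcon
  push Not at hcon
  obtain ⟨hm1, hm2⟩ := hcon
  obtain ⟨⟨hc1, hc2, hlin, hs1, -, hs3, -⟩, hmin⟩ := hbest
  obtain ⟨j, c, hc, ha, hb⟩ := unit_of_fraction hc1 hm1
  obtain ⟨i, c', hc', ha', hb'⟩ := unit_of_fraction hc2 hm2
  obtain ⟨hj1, hj2⟩ := exponent_bounds hc ha hb hK h2 hs1
  obtain ⟨hi1, hi2⟩ := exponent_bounds hc' ha' hb' hK h2 hs3
  have hTpos : 0 < φ ^ (2 * K) := pow_pos goldenRatio_pos _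
  have h5 : (0 : ℝ) < √5 := by positivity
  have hlow : 19 / 2 / φ ^ (2 * K) / √5 ≤ discrepancy e₁ e₂ (toR v₁) (toR v₂) := by
    apply le_disc hlin
    · rw [ha, hb, ha', hb']
      obtain ⟨e1, e2⟩ := big_unit hc hc' (φ ^ j) (ψ ^ j) (φ ^ i) (ψ ^ i)
      rw [e1, e2]
      have := lower K hK j i hj1 hi2
      calc _ = 19 / 2 / φ ^ (2 * K) * |φ ^ j * ψ ^ i - ψ ^ j * φ ^ i| := by field_simp
        _ ≤ _ := this
    · rw [ha, hb, ha', hb']
      obtain ⟨e1, e2⟩ := big_unit hc' hc (φ ^ i) (ψ ^ i) (φ ^ j) (ψ ^ j)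
      rw [e1, e2]
      have := lower K hK i j hi1 hj2
      calc _ = 19 / 2 / φ ^ (2 * K) * |φ ^ i * ψ ^ j - ψ ^ i * φ ^ j| := by field_simp
        _ ≤ _ := this
  have hle := hmin v w hvw
  have hlt : 9 / φ ^ (2 * K) / √5 < 19 / 2 / φ ^ (2 * K) / √5 := by
    apply div_lt_div_of_pos_right _ h5
    apply div_lt_div_of_pos_right _ hTpos
    norm_num
  linarith

open Classical in
theorem density (X : ℕ) (hX : 10000 ≤ X) :
    (X : ℝ) / 20 ≤ ((Finset.Icc 1 X).filter (fun N => Exceptional e₁ e₂ N)).card := by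
  have hg := phi_gt
  have hl := phi_lt
  have hX' : (10000 : ℝ) ≤ X := by exact_mod_cast hX
  obtain ⟨K, hK1, hK2⟩ := exists_nat_pow_near (x := (X : ℝ) / 5.95) (y := φ)
    (by rw [le_div_iff₀ (by norm_num)]; linarith) one_lt_goldenRatio
  rw [le_div_iff₀ (by norm_num)] at hK1
  rw [div_lt_iff₀ (by norm_num)] at hK2
  have hK : 12 ≤ K := by
    by_contra hcon
    push Not at hcon
    have : φ ^ (K + 1) ≤ φ ^ 12 := pow_le_pow_right₀ one_lt_goldenRatio.le (by omega)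
    have h12 : φ ^ 12 ≤ 1.6181 ^ 12 := pow_le_pow_left₀ goldenRatio_pos.le hl.le _
    have : (1.6181 : ℝ) ^ 12 < 400 := by norm_num
    linarith
  have hpow := pow_ge K hK
  set Y := φ ^ K with hY
  have hsub : Finset.Icc ⌈5.43 * Y⌉₊ ⌊5.95 * Y⌋₊ ⊆
      (Finset.Icc 1 X).filter (fun N => Exceptional e₁ e₂ N) := by
    intro N hN
    rw [Finset.mem_Icc] at hN
    have a1 : 5.43 * Y ≤ N := Nat.ceil_le.1 hN.1
    have a2 : (N : ℝ) ≤ 5.95 * Y := (Nat.le_floor_iff (by positivity)).1 hN.2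
    rw [Finset.mem_filter, Finset.mem_Icc]
    refine ⟨⟨?_, ?_⟩, exceptional K N hK a1 a2⟩
    · have : (1 : ℝ) ≤ N := by linarith
      exact_mod_cast this
    · have : (N : ℝ) ≤ X := by linarith
      exact_mod_cast this
  have hcard := Finset.card_le_card hsub
  rw [Nat.card_Icc] at hcard
  have b1 : (⌈5.43 * Y⌉₊ : ℝ) < 5.43 * Y + 1 := Nat.ceil_lt_add_one (by positivity)
  have b2 : 5.95 * Y < ⌊5.95 * Y⌋₊ + 1 := Nat.lt_floor_add_one _
  have b3 : ((⌊5.95 * Y⌋₊ + 1 : ℕ) : ℝ) - (⌈5.43 * Y⌉₊ : ℝ) ≤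
      ((⌊5.95 * Y⌋₊ + 1 - ⌈5.43 * Y⌉₊ : ℕ) : ℝ) := by
    rw [sub_le_iff_le_add]
    have : ⌊5.95 * Y⌋₊ + 1 ≤ (⌊5.95 * Y⌋₊ + 1 - ⌈5.43 * Y⌉₊) + ⌈5.43 * Y⌉₊ := by omega
    exact_mod_cast this
  have b4 : ((⌊5.95 * Y⌋₊ + 1 - ⌈5.43 * Y⌉₊ : ℕ) : ℝ) ≤
      ((Finset.Icc 1 X).filter (fun N => Exceptional e₁ e₂ N)).card := by
    exact_mod_cast hcard
  push_cast at b3
  rw [pow_succ] at hK2
  have b5 : Y * φ * 5.95 ≤ Y * 1.6181 * 5.95 := by
    have : 0 < Y := by linarith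
    have : Y * φ ≤ Y * 1.6181 := mul_le_mul_of_nonneg_left hl.le this.le
    linarith
  linarith

theorem algebraic : Algebraic e₁ e₂ := by
  refine ⟨delta_ne, !![13, -31; 5, -12], ?_, ?_, ψ, φ, ?_, ?_, ?_⟩
  · rw [Matrix.det_fin_two_of]
    norm_num
  · have hchar : (!![13, -31; 5, -12].map (Int.castRingHom ℚ) : Matrix (Fin 2) (Fin 2) ℚ).charpoly =
        Polynomial.X ^ 2 - Polynomial.X - 1 := by
      rw [Matrix.charpoly_fin_two, Matrix.trace_fin_two, Matrix.det_fin_two]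
      simp only [Matrix.map_apply, Matrix.of_apply, Matrix.cons_val', Matrix.cons_val_zero,
        Matrix.cons_val_one, Matrix.cons_val_fin_one]
      norm_num
      ring
    rw [hchar]
    have hdeg : (Polynomial.X ^ 2 - Polynomial.X - 1 : Polynomial ℚ).natDegree = 2 := by
      compute_degree!
    rw [Polynomial.irreducible_iff_roots_eq_zero_of_degree_le_three (by rw [hdeg])
      (by rw [hdeg]; norm_num)]
    rw [Multiset.eq_zero_iff_forall_notMem]
    intro r hr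
    rw [Polynomial.mem_roots'] at hr
    have h := hr.2
    simp only [Polynomial.IsRoot.def, Polynomial.eval_sub, Polynomial.eval_pow, Polynomial.eval_X,
      Polynomial.eval_one] at h
    have h2 : ((r : ℝ) - φ) * (r - ψ) = 0 := by
      have h3 : (r : ℝ) ^ 2 - r - 1 = 0 := by exact_mod_cast h
      have hppr := phi_mul_psi
      have hs : φ + ψ = 1 := goldenRatio_add_goldenConj
      linear_combination h3 + hppr - r * hs
    rcases mul_eq_zero.1 h2 with h4 | h4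
    · exact goldenRatio_irrational ⟨r, by linarith⟩
    · exact goldenConj_irrational ⟨r, by linarith⟩
  · intro h
    have h1 := goldenConj_neg
    have h2 := goldenRatio_pos
    rw [h] at h1
    linarith
  · have h1 := phi_sq
    have h2 := psi_eq
    rw [h2]
    ext i
    fin_cases i
    · simp [Matrix.mulVec, dotProduct, Fin.sum_univ_two, e₁]
      linear_combination (2 : ℝ) * h1
    · simp [Matrix.mulVec, dotProduct, Fin.sum_univ_two, e₁]
      linear_combination (1 : ℝ) * h1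
  · have h1 := phi_sq
    have h2 := psi_eq
    ext i
    fin_cases i
    · simp [Matrix.mulVec, dotProduct, Fin.sum_univ_two, e₂]
      rw [h2]
      linear_combination (2 : ℝ) * h1
    · simp [Matrix.mulVec, dotProduct, Fin.sum_univ_two, e₂]
      rw [h2]
      linear_combination (1 : ℝ) * h1

end Q272.SA
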