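import Pool.Agent.Q272.SA.Defs

/-!
# The two embeddings: arithmetic of the golden arrangement
-/

set_option autoImplicit false

open Real
open scoped goldenRatio

namespace Q272.SA

lemma lin_e₁ (p : ℝ × ℝ) : lin e₁ p = (5 * p.2 - 2 * p.1) + (2 * p.2 - p.1) * φ := by
  unfold lin e₁
  ring

lemma lin_e₂ (p : ℝ × ℝ) : lin e₂ p = (5 * p.2 - 2 * p.1) + (2 * p.2 - p.1) * ψ := by
  unfold lin e₂
  ring

lemma phi_mul_psi : φ * ψ = -1 := goldenRatio_mul_goldenConj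

lemma phi_sq : φ ^ 2 = φ + 1 := goldenRatio_sq

lemma psi_eq : ψ = 1 - φ := (one_sub_goldenConj).symm

lemma lin_e₁_e₂ : lin e₁ e₂ = ψ - φ := by
  unfold lin e₁ e₂
  simp only
  ring

/-- the norm form -/
def nrm (v : ℤ × ℤ) : ℤ := 5 * v.1 ^ 2 - 25 * v.1 * v.2 + 31 * v.2 ^ 2

lemma lin_mul_lin (v : ℤ × ℤ) : lin e₁ (toR v) * lin e₂ (toR v) = nrm v := by
  rw [lin_e₁, lin_e₂]
  unfold toR nrm
  push_cast
  have h1 := phi_mul_psi
  have h2 : φ + ψ = 1 := goldenRatio_add_goldenConj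
  linear_combination ((2 * (v.2 : ℝ) - v.1) ^ 2) * h1 +
    ((5 * (v.2 : ℝ) - 2 * v.1) * (2 * v.2 - v.1)) * h2

lemma lin_ne_zero (v : ℤ × ℤ) (hv : v ≠ 0) :
    lin e₁ (toR v) ≠ 0 ∧ lin e₂ (toR v) ≠ 0 := by
  have key : ∀ x : ℝ, Irrational x →
      (5 * (v.2 : ℝ) - 2 * v.1) + (2 * (v.2 : ℝ) - v.1) * x ≠ 0 := by
    intro x hx h
    by_cases hb : 2 * v.2 - v.1 = 0
    · have hb' : 2 * (v.2 : ℝ) - v.1 = 0 := by exact_mod_cast hb
      rw [hb', zero_mul, add_zero] at h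
      have h' : 5 * v.2 - 2 * v.1 = 0 := by exact_mod_cast h
      apply hv
      ext
      · show v.1 = 0
        omega
      · show v.2 = 0
        omega
    · have hb' : (2 * (v.2 : ℝ) - v.1) ≠ 0 := by exact_mod_cast hb
      apply hx
      refine ⟨(-(5 * v.2 - 2 * v.1) : ℤ) / ((2 * v.2 - v.1 : ℤ) : ℚ), ?_⟩
      push_cast
      rw [div_eq_iff hb']
      linarith
  rw [lin_e₁, lin_e₂]
  exact ⟨key _ goldenRatio_irrational, key _ goldenConj_irrational⟩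

lemma nrm_ne_zero (v : ℤ × ℤ) (hv : v ≠ 0) : nrm v ≠ 0 := by
  intro h
  have h1 := lin_mul_lin v
  rw [h] at h1
  have h2 := lin_ne_zero v hv
  rcases mul_eq_zero.1 (by exact_mod_cast h1) with h3 | h3
  · exact h2.1 h3
  · exact h2.2 h3

lemma nrm_cases (v : ℤ × ℤ) (hv : v ≠ 0) : |nrm v| = 1 ∨ 4 ≤ |nrm v| := by
  have h0 := nrm_ne_zero v hv
  by_contra hcon
  push Not at hcon
  obtain ⟨h1, h2⟩ := hcon
  have h3 : nrm v % 5 = v.2 * v.2 % 5 := by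
    unfold nrm
    have : 5 * v.1 ^ 2 - 25 * v.1 * v.2 + 31 * v.2 ^ 2 =
        v.2 * v.2 + 5 * (v.1 ^ 2 - 5 * v.1 * v.2 + 6 * v.2 ^ 2) := by ring
    rw [this, Int.add_mul_emod_self_left]
  have h4 : v.2 * v.2 % 5 = 0 ∨ v.2 * v.2 % 5 = 1 ∨ v.2 * v.2 % 5 = 4 := by
    have h5 : v.2 % 5 = 0 ∨ v.2 % 5 = 1 ∨ v.2 % 5 = 2 ∨ v.2 % 5 = 3 ∨ v.2 % 5 = 4 := by omega
    rcases h5 with h5 | h5 | h5 | h5 | h5 <;> simp [Int.mul_emod, h5]
  have h6 : -4 < nrm v ∧ nrm v < 4 := abs_lt.1 h2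
  have h7 : nrm v ≠ 1 ∧ nrm v ≠ -1 := by
    constructor
    · intro h; apply h1; rw [h]; rfl
    · intro h; apply h1; rw [h]; rfl
  omega

/-- the vectors of the units -/
lemma vec_zpow (j : ℤ) : ∃ v : ℤ × ℤ, lin e₁ (toR v) = φ ^ j ∧ lin e₂ (toR v) = ψ ^ j := by
  induction j using Int.induction_on with
  | zero =>
    refine ⟨(2, 1), ?_, ?_⟩
    · rw [lin_e₁]; unfold toR; push_cast; simp; norm_num
    · rw [lin_e₂]; unfold toR; push_cast; simp; norm_num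
  | succ n ih =>
    obtain ⟨v, h1, h2⟩ := ih
    refine ⟨(13 * v.1 - 31 * v.2, 5 * v.1 - 12 * v.2), ?_, ?_⟩
    · rw [zpow_add_one₀ goldenRatio_ne_zero, ← h1, lin_e₁, lin_e₁]
      unfold toR
      push_cast
      have := phi_sq
      linear_combination (-(2 * (v.2 : ℝ) - v.1)) * this
    · rw [zpow_add_one₀ goldenConj_ne_zero, ← h2, lin_e₂, lin_e₂]
      unfold toR
      push_cast
      have := goldenConj_sq
      linear_combination (-(2 * (v.2 : ℝ) - v.1)) * this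
  | pred n ih =>
    obtain ⟨v, h1, h2⟩ := ih
    refine ⟨(12 * v.1 - 31 * v.2, 5 * v.1 - 13 * v.2), ?_, ?_⟩
    · rw [zpow_sub_one₀ goldenRatio_ne_zero, ← h1, lin_e₁, lin_e₁, eq_mul_inv_iff_mul_eq₀
        goldenRatio_ne_zero]
      unfold toR
      push_cast
      have := phi_sq
      linear_combination ((2 * (5 * (v.1:ℝ) - 13 * v.2) - (12 * v.1 - 31 * v.2))) * this
    · rw [zpow_sub_one₀ goldenConj_ne_zero, ← h2, lin_e₂, lin_e₂, eq_mul_inv_iff_mul_eq₀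
        goldenConj_ne_zero]
      unfold toR
      push_cast
      have := goldenConj_sq
      linear_combination ((2 * (5 * (v.1:ℝ) - 13 * v.2) - (12 * v.1 - 31 * v.2))) * this

lemma coprime_of_nrm (v : ℤ × ℤ) (h : |nrm v| = 1) : IsCoprime v.1 v.2 := by
  rcases (abs_eq (by norm_num)).1 h with h1 | h1
  · refine ⟨5 * v.1 - 25 * v.2, 31 * v.2, ?_⟩
    unfold nrm at h1
    linarith
  · refine ⟨-(5 * v.1 - 25 * v.2), -(31 * v.2), ?_⟩
    unfold nrm at h1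
    linarith

lemma abs_psi_zpow (j : ℤ) : |ψ ^ j| = φ ^ (-j) := by
  have h : |ψ| = φ⁻¹ := by
    rw [inv_goldenRatio, abs_of_neg goldenConj_neg]
  rw [abs_zpow, h, inv_zpow, zpow_neg]

end Q272.SA
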