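import Pool.Agent.Q272.SA.Ring

/-!
# Vectors on the sails of the golden arrangement
-/

set_option autoImplicit false

open Real
open scoped goldenRatio

namespace Q272.SA

/-- the nonzero integer points of an angle -/
def pts (s t : ℝ) : Set (ℝ × ℝ) :=
  {p | p ∈ angle e₁ e₂ s t ∧ ∃ z : ℤ × ℤ, z ≠ 0 ∧ toR z = p}

lemma lin_add (u p q : ℝ × ℝ) : lin u (p + q) = lin u p + lin u q := by
  unfold lin
  simp only [Prod.fst_add, Prod.snd_add]
  ring

lemma lin_smul (u p : ℝ × ℝ) (a : ℝ) : lin u (a • p) = a * lin u p := by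
  unfold lin
  simp only [Prod.smul_fst, Prod.smul_snd, smul_eq_mul]
  ring

lemma lin_sub (u p q : ℝ × ℝ) : lin u (p - q) = lin u p - lin u q := by
  unfold lin
  simp only [Prod.fst_sub, Prod.snd_sub]
  ring

lemma continuous_lin (u : ℝ × ℝ) : Continuous (lin u) := by
  unfold lin
  fun_prop

lemma continuous_lin' (u : ℝ × ℝ) : Continuous (fun p => lin p u) := by
  unfold lin
  fun_prop

lemma three_mem {s t : ℝ} {p : ℝ × ℝ} (hp : p ∈ pts s t) : (3 : ℝ) • p ∈ pts s t := by
  obtain ⟨⟨h1, h2⟩, z, hz, hz2⟩ := hp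
  refine ⟨⟨?_, ?_⟩, (3 * z.1, 3 * z.2), ?_, ?_⟩
  · rw [lin_smul]; linarith
  · rw [lin_smul]; linarith
  · intro h
    apply hz
    have h1 := congrArg Prod.fst h
    have h2 := congrArg Prod.snd h
    simp only [Prod.fst_zero, Prod.snd_zero] at h1 h2
    ext
    · show z.1 = 0
      omega
    · show z.2 = 0
      omega
  · rw [← hz2]
    unfold toR
    ext <;> simp

lemma scale_mem {s t : ℝ} {p : ℝ × ℝ} (hp : p ∈ pts s t) {l : ℝ} (h1 : 1 ≤ l) (h3 : l ≤ 3) :
    l • p ∈ convexHull ℝ (pts s t) := by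
  have hc := convex_convexHull ℝ (pts s t)
  have hp1 := subset_convexHull ℝ _ hp
  have hp3 := subset_convexHull ℝ _ (three_mem hp)
  have := hc hp1 hp3 (show (0 : ℝ) ≤ (3 - l) / 2 by linarith)
    (show (0 : ℝ) ≤ (l - 1) / 2 by linarith) (by ring)
  convert this using 1
  rw [smul_smul, ← add_smul]
  congr 1
  ring

lemma comb_mem {s t : ℝ} {p q : ℝ × ℝ} (hp : p ∈ pts s t) (hq : q ∈ pts s t) {a b : ℝ}
    (ha : 0 < a) (hb : 0 < b) (h1 : 1 ≤ a + b) (h3 : a + b ≤ 3) :
    a • p + b • q ∈ convexHull ℝ (pts s t) := by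
  have hc := convex_convexHull ℝ (pts s t)
  have hab : 0 < a + b := by linarith
  have := hc (scale_mem hp h1 h3) (scale_mem hq h1 h3)
    (show (0 : ℝ) ≤ a / (a + b) by positivity) (show (0 : ℝ) ≤ b / (a + b) by positivity)
    (by field_simp)
  convert this using 1
  rw [smul_smul, smul_smul]
  congr 2 <;> field_simp

lemma decomp (p q z : ℝ × ℝ) (h : lin p q ≠ 0) :
    z = (lin z q / lin p q) • p + (lin p z / lin p q) • q := by
  ext
  · simp only [Prod.fst_add, Prod.smul_fst, smul_eq_mul]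
    rw [div_mul_eq_mul_div, div_mul_eq_mul_div, ← add_div, eq_div_iff h]
    unfold lin
    ring
  · simp only [Prod.snd_add, Prod.smul_snd, smul_eq_mul]
    rw [div_mul_eq_mul_div, div_mul_eq_mul_div, ← add_div, eq_div_iff h]
    unfold lin
    ring

lemma sum_mem_interior {s t : ℝ} {p q : ℝ × ℝ} (hp : p ∈ pts s t) (hq : q ∈ pts s t)
    (h : lin p q ≠ 0) : p + q ∈ interior (convexHull ℝ (pts s t)) := by
  rw [mem_interior]
  refine ⟨{z | lin z q / lin p q ∈ Set.Ioo (1 / 2 : ℝ) (3 / 2) ∧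
    lin p z / lin p q ∈ Set.Ioo (1 / 2 : ℝ) (3 / 2)}, ?_, ?_, ?_⟩
  · rintro z ⟨⟨h1, h2⟩, h3, h4⟩
    rw [decomp p q z h]
    exact comb_mem hp hq (by linarith) (by linarith) (by linarith) (by linarith)
  · apply IsOpen.inter
    · exact isOpen_Ioo.preimage ((continuous_lin' q).div_const _)
    · exact isOpen_Ioo.preimage ((continuous_lin p).div_const _)
  · have e1 : lin (p + q) q = lin p q := by
      unfold lin
      simp only [Prod.fst_add, Prod.snd_add]
      ring
    have e2 : lin p (p + q) = lin p q := by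
      unfold lin
      simp only [Prod.fst_add, Prod.snd_add]
      ring
    simp only [Set.mem_ofPred_eq]
    rw [e1, e2, div_self h]
    norm_num

lemma hull_subset (s t : ℝ) : closure (convexHull ℝ (pts s t)) ⊆ angle e₁ e₂ s t := by
  have hcl : IsClosed (angle e₁ e₂ s t) := by
    apply IsClosed.inter
    · exact isClosed_le continuous_const ((continuous_lin e₁).const_smul s)
    · exact isClosed_le continuous_const ((continuous_lin e₂).const_smul t)
  have hcx : Convex ℝ (angle e₁ e₂ s t) := by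
    intro p hp q hq a b ha hb _
    obtain ⟨h1, h2⟩ := hp
    obtain ⟨h3, h4⟩ := hq
    constructor
    · show 0 ≤ s * lin e₁ (a • p + b • q)
      rw [lin_add, lin_smul, lin_smul]
      have := add_nonneg (mul_nonneg ha h1) (mul_nonneg hb h3)
      linarith
    · show 0 ≤ t * lin e₂ (a • p + b • q)
      rw [lin_add, lin_smul, lin_smul]
      have := add_nonneg (mul_nonneg ha h2) (mul_nonneg hb h4)
      linarith
  apply closure_minimal _ hcl
  exact convexHull_min (fun p hp => hp.1) hcx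

/-- an integer vector which is the sum of two others in the same open angle is not on a sail -/
lemma not_mem_fraction {v p q : ℤ × ℤ} (hv : v ≠ 0) (hp0 : p ≠ 0) (hq0 : q ≠ 0)
    (hsum : toR v = toR p + toR q)
    (hp1 : 0 < lin e₁ (toR p) * lin e₁ (toR v)) (hp2 : 0 < lin e₂ (toR p) * lin e₂ (toR v))
    (hq1 : 0 < lin e₁ (toR q) * lin e₁ (toR v)) (hq2 : 0 < lin e₂ (toR q) * lin e₂ (toR v))
    (hne : lin (toR p) (toR q) ≠ 0) : toR v ∉ fraction e₁ e₂ := by
  rintro ⟨s, t, hs, ht, hmem⟩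
  have hvang := hull_subset s t (frontier_subset_closure hmem)
  obtain ⟨h1, h2⟩ := hvang
  have hl := lin_ne_zero v hv
  have aux : ∀ s x y : ℝ, (s = 1 ∨ s = -1) → 0 ≤ s * x → 0 < y * x → 0 ≤ s * y := by
    rintro s x y (rfl | rfl) hx hyx
    · rw [one_mul] at hx ⊢
      by_contra hcon
      push Not at hcon
      nlinarith
    · by_contra hcon
      push Not at hcon
      nlinarith
  have hP : toR p ∈ pts s t := ⟨⟨aux s _ _ hs h1 hp1, aux t _ _ ht h2 hp2⟩, p, hp0, rfl⟩
  have hQ : toR q ∈ pts s t := ⟨⟨aux s _ _ hs h1 hq1, aux t _ _ ht h2 hq2⟩, q, hq0, rfl⟩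
  have hint := sum_mem_interior hP hQ hne
  rw [← hsum] at hint
  exact hmem.2 hint

lemma toR_sub (v p : ℤ × ℤ) : toR (v - p) = toR v - toR p := by
  unfold toR
  ext <;> simp

lemma toR_smul (c : ℤ) (p : ℤ × ℤ) : toR (c • p) = (c : ℝ) • toR p := by
  unfold toR
  ext <;> simp

lemma toR_zero : toR 0 = 0 := by
  unfold toR
  ext <;> simp

lemma ne_zero_of_lin {v : ℤ × ℤ} {u : ℝ × ℝ} (h : lin u (toR v) ≠ 0) : v ≠ 0 := by
  rintro rfl
  apply h
  rw [toR_zero]
  unfold lin
  simp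

lemma parallel {p v : ℤ × ℤ} (hp : IsCoprime p.1 p.2) (hv : IsCoprime v.1 v.2)
    (h : p.1 * v.2 = p.2 * v.1) : v = p ∨ v = -p := by
  obtain ⟨a, b, hab⟩ := hp
  set t := a * v.1 + b * v.2 with ht
  have e1 : v.1 = p.1 * t := by
    rw [ht]
    linear_combination (-(v.1)) * hab - b * h
  have e2 : v.2 = p.2 * t := by
    rw [ht]
    linear_combination (-(v.2)) * hab + a * h
  have h3 : IsUnit t := by
    apply hv.isUnit_of_dvd'
    · rw [e1]; exact dvd_mul_left _ _
    · rw [e2]; exact dvd_mul_left _ _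
  rcases Int.isUnit_iff.1 h3 with h4 | h4
  · left
    ext
    · rw [e1, h4, mul_one]
    · rw [e2, h4, mul_one]
  · right
    ext
    · rw [e1, h4]; simp
    · rw [e2, h4]; simp

/-- primitive vectors on the sails have norm `± 1` -/
lemma nrm_of_fraction {v : ℤ × ℤ} (hv : IsCoprime v.1 v.2) (hmem : toR v ∈ fraction e₁ e₂) :
    |nrm v| = 1 := by
  have hv0 : v ≠ 0 := by
    rintro rfl
    exact not_isCoprime_zero_zero hv
  rcases nrm_cases v hv0 with h1 | h4
  · exact h1
  exfalso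
  obtain ⟨hx0, hy0⟩ := lin_ne_zero v hv0
  set x := lin e₁ (toR v) with hx
  set y := lin e₂ (toR v) with hy
  have hxpos : 0 < |x| := abs_pos.2 hx0
  have hypos : 0 < |y| := abs_pos.2 hy0
  have hxy : (4 : ℝ) ≤ |x| * |y| := by
    rw [← abs_mul, hx, hy, lin_mul_lin]
    exact_mod_cast h4
  have hphi1 : 1 < φ := one_lt_goldenRatio
  have hphi0 : 0 < φ := goldenRatio_pos
  have hphi2 : φ ^ 2 < 4 := by
    rw [phi_sq]
    have := goldenRatio_lt_two
    linarith
  obtain ⟨j₀, hj1, hj2⟩ := exists_mem_Ioc_zpow hxpos hphi1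
  -- choose the parity
  have hj : ∃ j : ℤ, φ ^ j < |x| ∧ φ ^ (-j) < |y| ∧ 0 < ψ ^ j * (x * y) := by
    have hc : x * y ≠ 0 := mul_ne_zero hx0 hy0
    have hpsi : ψ ^ j₀ ≠ 0 := zpow_ne_zero _ goldenConj_ne_zero
    have hlow : φ ^ (-(j₀ - 1)) < |y| := by
      have e : φ ^ (-(j₀ - 1)) * φ ^ (j₀ + 1) = φ ^ 2 := by
        rw [← zpow_add₀ goldenRatio_ne_zero, show -(j₀ - 1) + (j₀ + 1) = (2 : ℤ) by ring]
        exact zpow_ofNat φ 2
      have hpos : 0 < φ ^ (-(j₀ - 1)) := zpow_pos hphi0 _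
      by_contra hcon
      push Not at hcon
      have : |x| * |y| ≤ φ ^ (j₀ + 1) * φ ^ (-(j₀ - 1)) :=
        mul_le_mul hj2 hcon hypos.le (zpow_pos hphi0 _).le
      rw [mul_comm, mul_comm (φ ^ (j₀ + 1)), e] at this
      linarith [mul_comm |x| |y|]
    rcases lt_or_gt_of_ne (mul_ne_zero hpsi hc) with hneg | hpos
    · refine ⟨j₀ - 1, ?_, hlow, ?_⟩
      · refine lt_of_le_of_lt ?_ hj1
        exact zpow_le_zpow_right₀ hphi1.le (by omega)
      · rw [zpow_sub_one₀ goldenConj_ne_zero, inv_goldenConj]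
        nlinarith
    · refine ⟨j₀, hj1, ?_, hpos⟩
      refine lt_of_le_of_lt ?_ hlow
      exact zpow_le_zpow_right₀ hphi1.le (by omega)
  obtain ⟨j, hj1, hj2, hj3⟩ := hj
  obtain ⟨u, hu1, hu2⟩ := vec_zpow j
  obtain ⟨c, hc1, hcx⟩ : ∃ c : ℤ, (c = 1 ∨ c = -1) ∧ (c : ℝ) * x = |x| := by
    rcases lt_or_gt_of_ne hx0 with h | h
    · exact ⟨-1, Or.inr rfl, by rw [abs_of_neg h]; push_cast; ring⟩
    · exact ⟨1, Or.inl rfl, by rw [abs_of_pos h]; push_cast; ring⟩
  have hcc : (c : ℝ) * c = 1 := by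
    rcases hc1 with rfl | rfl <;> norm_num
  have hx' : x = c * |x| := by
    rw [← hcx, ← mul_assoc, hcc, one_mul]
  have hP1 : lin e₁ (toR (c • u)) = c * φ ^ j := by rw [toR_smul, lin_smul, hu1]
  have hP2 : lin e₂ (toR (c • u)) = c * ψ ^ j := by rw [toR_smul, lin_smul, hu2]
  have hposj : 0 < φ ^ j := zpow_pos hphi0 _
  have a1 : lin e₁ (toR (c • u)) * x = φ ^ j * |x| := by
    rw [hP1, mul_comm (c : ℝ), mul_assoc, hcx]
  have a2 : lin e₂ (toR (c • u)) * y = φ ^ (-j) * |y| := by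
    rw [hP2]
    have h5 : 0 < c * ψ ^ j * y := by
      have h6 : ψ ^ j * (x * y) = (c * ψ ^ j * y) * |x| := by
        conv_lhs => rw [hx']
        ring
      rw [h6] at hj3
      exact (pos_iff_pos_of_mul_pos hj3).2 hxpos
    rw [← abs_of_pos h5, abs_mul, abs_mul, abs_psi_zpow]
    have : |(c : ℝ)| = 1 := by
      rcases hc1 with rfl | rfl <;> norm_num
    rw [this, one_mul]
  have hd : ∀ w : ℝ × ℝ, lin w (toR (v - c • u)) = lin w (toR v) - lin w (toR (c • u)) := by
    intro w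
    rw [toR_sub, lin_sub]
  have hu0 : c • u ≠ 0 := by
    apply ne_zero_of_lin (u := e₁)
    intro h
    rw [h, zero_mul] at a1
    exact (mul_pos hposj hxpos).ne a1
  have b1 : 0 < lin e₁ (toR (v - c • u)) * x := by
    rw [hd, sub_mul, a1, ← hx, ← abs_mul_abs_self x, ← sub_mul]
    exact mul_pos (by linarith) hxpos
  have b2 : 0 < lin e₂ (toR (v - c • u)) * y := by
    rw [hd, sub_mul, a2, ← hy, ← abs_mul_abs_self y, ← sub_mul]
    exact mul_pos (by linarith) hypos
  have hq0 : v - c • u ≠ 0 := by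
    apply ne_zero_of_lin (u := e₁)
    intro h
    rw [h, zero_mul] at b1
    exact lt_irrefl _ b1
  refine not_mem_fraction hv0 hu0 hq0 ?_ ?_ ?_ b1 b2 ?_ hmem
  · rw [toR_sub]
    ring
  · rw [← hx, a1]
    exact mul_pos hposj hxpos
  · rw [← hy, a2]
    exact mul_pos (zpow_pos hphi0 _) hypos
  · intro h0
    have h5 : (c • u).1 * v.2 = (c • u).2 * v.1 := by
      have h6 : ((c • u).1 : ℝ) * v.2 = (c • u).2 * v.1 := by
        unfold lin toR at h0
        push_cast at h0 ⊢
        simp only [Prod.fst_sub, Prod.snd_sub] at h0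
        push_cast at h0
        linarith
      exact_mod_cast h6
    have hcop : IsCoprime (c • u).1 (c • u).2 := by
      apply coprime_of_nrm
      have h7 : (|nrm (c • u)| : ℤ) = (1 : ℝ) := by
        push_cast
        rw [← lin_mul_lin, hP1, hP2]
        rw [show (c : ℝ) * φ ^ j * (c * ψ ^ j) = (c * c) * (φ * ψ) ^ j by
          rw [mul_zpow]; ring, hcc, phi_mul_psi, one_mul, abs_zpow, abs_neg, abs_one, one_zpow]
      exact_mod_cast h7
    rcases parallel hcop hv h5 with h6 | h6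
    · apply hq0
      rw [h6]
      simp
    · have : x = - lin e₁ (toR (c • u)) := by
        rw [hx]
        conv_lhs => rw [h6]
        unfold lin toR
        push_cast
        simp
        ring
      rw [hP1] at this
      have h8 : lin e₁ (toR (c • u)) * x ≤ 0 := by
        rw [hP1, this]
        nlinarith [mul_self_nonneg ((c : ℝ) * φ ^ j)]
      rw [a1] at h8
      exact absurd (mul_pos hposj hxpos) (not_lt.2 h8)

end Q272.SA
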