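import Pool.Agent.Q272.SA.Lower

/-!
# Sizes, and arrangements with a vector off the sails
-/

set_option autoImplicit false

open Real
open scoped goldenRatio

namespace Q272.SA

lemma fst_eq (v : ℝ × ℝ) : √5 * v.1 = (5 + 2 * φ) * lin e₂ v - (5 + 2 * ψ) * lin e₁ v := by
  rw [← goldenRatio_sub_goldenConj, lin_e₁, lin_e₂]
  ring

lemma snd_eq (v : ℝ × ℝ) : √5 * v.2 = (2 + φ) * lin e₂ v - (2 + ψ) * lin e₁ v := by
  rw [← goldenRatio_sub_goldenConj, lin_e₁, lin_e₂]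
  ring

lemma sqrt5_gt : 2.236 < √5 := by
  rw [lt_sqrt (by norm_num)]
  norm_num

lemma sqrt5_lt : √5 < 2.2361 := by
  rw [sqrt_lt' (by norm_num)]
  norm_num

lemma pow12 : (300 : ℝ) < φ ^ 12 := by
  have h := phi_gt
  calc (300 : ℝ) < 1.618 ^ 12 := by norm_num
    _ ≤ φ ^ 12 := pow_le_pow_left₀ (by norm_num) h.le _

lemma pow_ge (K : ℕ) (hK : 12 ≤ K) : 300 < φ ^ K :=
  lt_of_lt_of_le pow12 (pow_le_pow_right₀ one_lt_goldenRatio.le hK)

/-- the exponent of a unit vector which is not too long -/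
lemma exponent_bounds {v : ℤ × ℤ} {j : ℤ} {c : ℝ} (hc : c = 1 ∨ c = -1)
    (h1 : lin e₁ (toR v) = c * φ ^ j) (h2 : lin e₂ (toR v) = c * ψ ^ j) {K N : ℕ} (hK : 12 ≤ K)
    (hN : (N : ℝ) ≤ 5.95 * φ ^ K) (hv : |v.1| ≤ N) : -(K : ℤ) ≤ j ∧ j ≤ K + 2 := by
  have hg := phi_gt
  have hl := phi_lt
  have h5 := sqrt5_lt
  have h50 := sqrt5_gt
  have hp := psi_eq
  have hpow := pow_ge K hK
  have hc1 : |c| = 1 := by rcases hc with rfl | rfl <;> norm_num
  have hv' : |(v.1 : ℝ)| ≤ N := by exact_mod_cast hv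
  have hx : √5 * |(v.1 : ℝ)| ≤ 13.3048 * φ ^ K := by
    calc √5 * |(v.1 : ℝ)| ≤ 2.2361 * (5.95 * φ ^ K) :=
          mul_le_mul h5.le (hv'.trans hN) (abs_nonneg _) (by norm_num)
      _ ≤ 13.3048 * φ ^ K := by nlinarith
  have hfst := fst_eq (toR v)
  have hf : (toR v).1 = (v.1 : ℝ) := rfl
  rw [hf, h1, h2] at hfst
  have habs : √5 * |(v.1 : ℝ)| = |(5 + 2 * φ) * (c * ψ ^ j) - (5 + 2 * ψ) * (c * φ ^ j)| := by
    rw [← hfst, abs_mul, abs_of_pos (show (0 : ℝ) < √5 by positivity)]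
  have e1 : |(5 + 2 * φ) * (c * ψ ^ j)| = (5 + 2 * φ) * φ ^ (-j) := by
    rw [abs_mul, abs_mul, hc1, one_mul, abs_psi_zpow, abs_of_pos (by linarith)]
  have e2 : |(5 + 2 * ψ) * (c * φ ^ j)| = (5 + 2 * ψ) * φ ^ j := by
    rw [abs_mul, abs_mul, hc1, one_mul, abs_of_pos (zpow_pos goldenRatio_pos _),
      abs_of_pos (by linarith)]
  have a1 := abs_sub_abs_le_abs_sub ((5 + 2 * φ) * (c * ψ ^ j)) ((5 + 2 * ψ) * (c * φ ^ j))
  have a2 := abs_sub_abs_le_abs_sub ((5 + 2 * ψ) * (c * φ ^ j)) ((5 + 2 * φ) * (c * ψ ^ j))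
  rw [abs_sub_comm ((5 + 2 * ψ) * (c * φ ^ j))] at a2
  rw [← habs, e1, e2] at a1 a2
  have hnat : φ ^ K = φ ^ (K : ℤ) := (zpow_natCast _ _).symm
  constructor
  · by_contra hcon
    push Not at hcon
    have b1 : φ ^ ((K : ℤ) + 1) ≤ φ ^ (-j) := pow_le_zpow (by omega)
    rw [zpow_add₀ goldenRatio_ne_zero, zpow_one, ← hnat] at b1
    have b2 : φ ^ j ≤ 1 := by
      have := pow_le_zpow (show j ≤ 0 by omega)
      rwa [zpow_zero] at this
    have b3 : 0 < φ ^ j := zpow_pos goldenRatio_pos _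
    have b4 : (5 + 2 * ψ) * φ ^ j ≤ 4 := by nlinarith
    have b5 : 8.236 * (1.618 * φ ^ K) ≤ (5 + 2 * φ) * φ ^ (-j) := by
      apply mul_le_mul (by linarith) _ (by positivity) (by linarith)
      refine le_trans ?_ b1
      nlinarith
    nlinarith
  · by_contra hcon
    push Not at hcon
    have b1 : φ ^ ((K : ℤ) + 2) ≤ φ ^ j := pow_le_zpow (by omega)
    have b1' : φ ^ ((K : ℤ) + 3) ≤ φ ^ j := pow_le_zpow (by omega)
    have b3 : φ ^ (-j) ≤ 1 := by
      have := pow_le_zpow (show -j ≤ 0 by omega)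
      rwa [zpow_zero] at this
    have hphi3 : φ ^ (3 : ℤ) = 2 * φ + 1 := by
      have := phi_sq
      have h3 : φ ^ (3 : ℕ) = 2 * φ + 1 := by linear_combination (φ + 1) * this
      exact_mod_cast h3
    rw [zpow_add₀ goldenRatio_ne_zero, ← hnat, hphi3] at b1'
    have b4 : (5 + 2 * φ) * φ ^ (-j) ≤ 9 := by
      have : 0 < φ ^ (-j) := zpow_pos goldenRatio_pos _
      nlinarith
    have b5 : 3.76 * (4.236 * φ ^ K) ≤ (5 + 2 * ψ) * φ ^ j := by
      apply mul_le_mul (by linarith) _ (by positivity) (by linarith)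
      refine le_trans ?_ b1'
      nlinarith
    nlinarith

/-- sizes from the two embeddings -/
lemma size_le {v : ℤ × ℤ} {a b : ℝ} (h1 : |lin e₁ (toR v)| ≤ a) (h2 : |lin e₂ (toR v)| ≤ b)
    {N : ℕ} (hN : 8.2362 * b + 3.7641 * a ≤ 2.236 * N) : |v.1| ≤ N ∧ |v.2| ≤ N := by
  have hg := phi_gt
  have hl := phi_lt
  have h50 := sqrt5_gt
  have hp := psi_eq
  have ha : 0 ≤ a := (abs_nonneg _).trans h1
  have hb : 0 ≤ b := (abs_nonneg _).trans h2
  have hN0 : (0 : ℝ) ≤ N := Nat.cast_nonneg _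
  have key : ∀ x c d : ℝ, √5 * x = c * lin e₂ (toR v) - d * lin e₁ (toR v) → 0 ≤ c → 0 ≤ d →
      c ≤ 8.2362 → d ≤ 3.7641 → |x| ≤ N := by
    intro x c d hx hc hd hc' hd'
    have e1 : √5 * |x| = |c * lin e₂ (toR v) - d * lin e₁ (toR v)| := by
      rw [← hx, abs_mul, abs_of_pos (show (0 : ℝ) < √5 by positivity)]
    have e2 := abs_sub (c * lin e₂ (toR v)) (d * lin e₁ (toR v))
    rw [abs_mul, abs_mul, abs_of_nonneg hc, abs_of_nonneg hd] at e2
    have e3 : c * |lin e₂ (toR v)| ≤ 8.2362 * b :=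
      mul_le_mul hc' h2 (abs_nonneg _) (by norm_num)
    have e4 : d * |lin e₁ (toR v)| ≤ 3.7641 * a :=
      mul_le_mul hd' h1 (abs_nonneg _) (by norm_num)
    have e5 : 2.236 * |x| ≤ √5 * |x| := mul_le_mul_of_nonneg_right h50.le (abs_nonneg _)
    by_contra hcon
    push Not at hcon
    nlinarith
  constructor
  · have := key (v.1 : ℝ) _ _ (fst_eq (toR v)) (by linarith) (by linarith) (by linarith)
      (by linarith)
    exact_mod_cast this
  · have := key (v.2 : ℝ) _ _ (snd_eq (toR v)) (by linarith) (by linarith) (by linarith)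
      (by linarith)
    exact_mod_cast this

lemma coprime_of_nrm_11 (v : ℤ × ℤ) (h : |nrm v| = 11) : IsCoprime v.1 v.2 := by
  rw [Int.isCoprime_iff_gcd_eq_one]
  set g := Int.gcd v.1 v.2 with hg
  obtain ⟨a, ha⟩ : (g : ℤ) ∣ v.1 := Int.gcd_dvd_left _ _
  obtain ⟨b, hb⟩ : (g : ℤ) ∣ v.2 := Int.gcd_dvd_right _ _
  have h1 : nrm v = (g : ℤ) ^ 2 * (5 * a ^ 2 - 25 * a * b + 31 * b ^ 2) := by
    unfold nrm
    rw [ha, hb]
    ring
  have h2 : (g : ℤ) ^ 2 ∣ 11 := by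
    have h3 : (g : ℤ) ^ 2 ∣ nrm v := ⟨_, h1⟩
    rw [← dvd_abs, h] at h3
    exact h3
  have h4 : g ^ 2 ∣ 11 := by exact_mod_cast h2
  have h5 : g ^ 2 ≤ 11 := Nat.le_of_dvd (by norm_num) h4
  have h6 : g ≤ 3 := by nlinarith
  interval_cases g
  · norm_num at h4
  · rfl
  · norm_num at h4
  · norm_num at h4

/-- the arrangement with a vector of norm `± 11` -/
lemma competitor (K N : ℕ) (hK : 12 ≤ K) (hN : 5.43 * φ ^ K ≤ N) :
    ∃ v w : ℤ × ℤ, IsInteger N v w ∧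
      discrepancy e₁ e₂ (toR v) (toR w) ≤ 9 / φ ^ (2 * K) / √5 := by
  have hg := phi_gt
  have hl := phi_lt
  have h50 := sqrt5_gt
  have hp := psi_eq
  have hpow := pow_ge K hK
  have hphi0 := goldenRatio_pos
  have hKpos : 0 < φ ^ K := by positivity
  obtain ⟨v, hv1, hv2⟩ := mul_zpow_vec (-18, -7) (-(K : ℤ))
  obtain ⟨w, hw1, hw2⟩ := vec_zpow (K : ℤ)
  have b1 : lin e₁ (toR (-18, -7)) = 1 + 4 * φ := by
    rw [lin_e₁]; unfold toR; push_cast; ring
  have b2 : lin e₂ (toR (-18, -7)) = 1 + 4 * ψ := by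
    rw [lin_e₂]; unfold toR; push_cast; ring
  rw [b1] at hv1
  rw [b2] at hv2
  have hnat : φ ^ (K : ℤ) = φ ^ K := zpow_natCast _ _
  have hneg : φ ^ (-(K : ℤ)) = (φ ^ K)⁻¹ := by rw [zpow_neg, hnat]
  have hinv : (φ ^ K)⁻¹ < 1 / 300 := by
    rw [inv_lt_comm₀ hKpos (by norm_num)]
    linarith
  have hinv0 : 0 < (φ ^ K)⁻¹ := inv_pos.2 hKpos
  have av1 : |lin e₁ (toR v)| = (1 + 4 * φ) * (φ ^ K)⁻¹ := by
    rw [hv1, hneg, abs_of_pos (by positivity)]
  have av2 : |lin e₂ (toR v)| = (4 * φ - 5) * φ ^ K := by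
    rw [hv2, abs_mul, abs_psi_zpow, neg_neg, hnat, psi_eq, abs_of_neg (by linarith)]
    ring
  have aw1 : |lin e₁ (toR w)| = φ ^ K := by
    rw [hw1, hnat, abs_of_pos hKpos]
  have aw2 : |lin e₂ (toR w)| = (φ ^ K)⁻¹ := by
    rw [hw2, abs_psi_zpow, hneg]
  -- products
  have hT : φ ^ (2 * K) = φ ^ K * φ ^ K := by rw [two_mul, pow_add]
  set T := φ ^ (2 * K) with hTdef
  have hT0 : 90000 < T := by rw [hT]; nlinarith
  have hTpos : 0 < T := by linarith
  have p11 : lin e₁ (toR v) * lin e₁ (toR w) = 1 + 4 * φ := by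
    rw [hv1, hw1, mul_assoc, ← zpow_add₀ goldenRatio_ne_zero, neg_add_cancel, zpow_zero, mul_one]
  have p22 : lin e₂ (toR v) * lin e₂ (toR w) = 1 + 4 * ψ := by
    rw [hv2, hw2, mul_assoc, ← zpow_add₀ goldenConj_ne_zero, neg_add_cancel, zpow_zero, mul_one]
  have p12 : |lin e₁ (toR v) * lin e₂ (toR w)| ≤ 7.5 / 90000 := by
    rw [abs_mul, av1, aw2, mul_assoc, ← mul_inv, ← hT]
    have : T⁻¹ ≤ 1 / 90000 := by
      rw [inv_le_comm₀ hTpos (by norm_num)]
      linarith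
    calc (1 + 4 * φ) * T⁻¹ ≤ 7.5 * (1 / 90000) :=
          mul_le_mul (by linarith) this (by positivity) (by norm_num)
      _ = 7.5 / 90000 := by norm_num
  have p21 : |lin e₂ (toR v) * lin e₁ (toR w)| = (4 * φ - 5) * T := by
    rw [abs_mul, av2, aw1, hT]
    ring
  have hP : 1.47 * T ≤ |lin e₁ (toR v) * lin e₂ (toR w) - lin e₂ (toR v) * lin e₁ (toR w)| := by
    have h := abs_sub_abs_le_abs_sub (lin e₂ (toR v) * lin e₁ (toR w))
      (lin e₁ (toR v) * lin e₂ (toR w))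
    rw [abs_sub_comm, p21] at h
    have h9 : 1.472 * T ≤ (4 * φ - 5) * T := mul_le_mul_of_nonneg_right (by linarith) hTpos.le
    linarith
  have hlin : lin (toR v) (toR w) ≠ 0 := by
    intro h0
    have := plucker e₁ e₂ (toR v) (toR w)
    rw [h0, mul_zero] at this
    rw [← this, abs_zero] at hP
    linarith
  have hppr := phi_mul_psi
  have hs : φ + ψ = 1 := goldenRatio_add_goldenConj
  refine ⟨v, w, ⟨?_, ?_, hlin, ?_, ?_, ?_, ?_⟩, ?_⟩
  · apply coprime_of_nrm_11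
    have h7 : ((|nrm v| : ℤ) : ℝ) = 11 := by
      push_cast
      rw [← lin_mul_lin, hv1, hv2]
      rw [show (1 + 4 * φ) * φ ^ (-(K : ℤ)) * ((1 + 4 * ψ) * ψ ^ (-(K : ℤ))) =
        ((1 + 4 * φ) * (1 + 4 * ψ)) * (φ * ψ) ^ (-(K : ℤ)) by rw [mul_zpow]; ring, phi_mul_psi,
        abs_mul, abs_zpow, abs_neg, abs_one, one_zpow, mul_one]
      have : (1 + 4 * φ) * (1 + 4 * ψ) = -11 := by linear_combination 16 * hppr + 4 * hs
      rw [this]
      norm_num
    exact_mod_cast h7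
  · apply coprime_of_nrm
    have h7 : ((|nrm w| : ℤ) : ℝ) = 1 := by
      push_cast
      rw [← lin_mul_lin, hw1, hw2, ← mul_zpow, phi_mul_psi, abs_zpow, abs_neg, abs_one, one_zpow]
    exact_mod_cast h7
  · refine (size_le av1.le av2.le ?_).1
    have h8 : (1 + 4 * φ) * (φ ^ K)⁻¹ ≤ 1 := by nlinarith
    have h9 : (4 * φ - 5) * φ ^ K ≤ 1.4724 * φ ^ K :=
      mul_le_mul_of_nonneg_right (by linarith) hKpos.le
    linarith
  · refine (size_le av1.le av2.le ?_).2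
    have h8 : (1 + 4 * φ) * (φ ^ K)⁻¹ ≤ 1 := by nlinarith
    have h9 : (4 * φ - 5) * φ ^ K ≤ 1.4724 * φ ^ K :=
      mul_le_mul_of_nonneg_right (by linarith) hKpos.le
    linarith
  · refine (size_le aw1.le aw2.le ?_).1
    linarith
  · refine (size_le aw1.le aw2.le ?_).2
    linarith
  · apply disc_le hlin
    have h12 := abs_le.1 p12
    have hbig : big (lin e₁ (toR v)) (lin e₂ (toR v)) (lin e₁ (toR w)) (lin e₂ (toR w)) ≤ 11 := by
      unfold big N₀ N₁ N₂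
      rw [p11, p22]
      have c0 : (5 + 5 * ψ) * (1 + 4 * φ) + (5 + 5 * φ) * (1 + 4 * ψ) = -5 := by
        linear_combination 40 * hppr + 25 * hs
      have c1 : -(24 + 22 * ψ) * (1 + 4 * φ) - (24 + 22 * φ) * (1 + 4 * ψ) = 10 := by
        linear_combination (-176) * hppr - 118 * hs
      have c2 : (29 + 24 * ψ) * (1 + 4 * φ) + (29 + 24 * φ) * (1 + 4 * ψ) = 6 := by
        linear_combination 192 * hppr + 140 * hs
      rw [c0, c1, c2]
      apply max_le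
      · rw [abs_le]; constructor <;> linarith
      · apply max_le
        · rw [abs_le]; constructor <;> linarith
        · rw [abs_le]; constructor <;> linarith
    refine hbig.trans ?_
    have h5 : (0 : ℝ) < √5 := by positivity
    have e : 9 / T / √5 *
        (√5 * |lin e₁ (toR v) * lin e₂ (toR w) - lin e₂ (toR v) * lin e₁ (toR w)|) =
        9 * |lin e₁ (toR v) * lin e₂ (toR w) - lin e₂ (toR v) * lin e₁ (toR w)| / T := by
      field_simp
    rw [e, le_div_iff₀ hTpos]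
    linarith

end Q272.SA
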