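import Pool.Agent.Q272.SA.Sail

/-!
# Vectors of norm `± 1`
-/

set_option autoImplicit false

open Real
open scoped goldenRatio

namespace Q272.SA

lemma mul_zpow_vec (v : ℤ × ℤ) (j : ℤ) : ∃ w : ℤ × ℤ,
    lin e₁ (toR w) = lin e₁ (toR v) * φ ^ j ∧ lin e₂ (toR w) = lin e₂ (toR v) * ψ ^ j := by
  induction j using Int.induction_on with
  | zero =>
    exact ⟨v, by simp, by simp⟩
  | succ n ih =>
    obtain ⟨w, h1, h2⟩ := ih
    refine ⟨(13 * w.1 - 31 * w.2, 5 * w.1 - 12 * w.2), ?_, ?_⟩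
    · rw [zpow_add_one₀ goldenRatio_ne_zero, ← mul_assoc, ← h1, lin_e₁ (toR w), lin_e₁]
      unfold toR
      push_cast
      have := phi_sq
      linear_combination (-(2 * (w.2 : ℝ) - w.1)) * this
    · rw [zpow_add_one₀ goldenConj_ne_zero, ← mul_assoc, ← h2, lin_e₂ (toR w), lin_e₂]
      unfold toR
      push_cast
      have := goldenConj_sq
      linear_combination (-(2 * (w.2 : ℝ) - w.1)) * this
  | pred n ih =>
    obtain ⟨w, h1, h2⟩ := ih
    refine ⟨(12 * w.1 - 31 * w.2, 5 * w.1 - 13 * w.2), ?_, ?_⟩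
    · rw [zpow_sub_one₀ goldenRatio_ne_zero, ← mul_assoc, ← h1, lin_e₁ (toR w), lin_e₁,
        eq_mul_inv_iff_mul_eq₀ goldenRatio_ne_zero]
      unfold toR
      push_cast
      have := phi_sq
      linear_combination ((2 * (5 * (w.1:ℝ) - 13 * w.2) - (12 * w.1 - 31 * w.2))) * this
    · rw [zpow_sub_one₀ goldenConj_ne_zero, ← mul_assoc, ← h2, lin_e₂ (toR w), lin_e₂,
        eq_mul_inv_iff_mul_eq₀ goldenConj_ne_zero]
      unfold toR
      push_cast
      have := goldenConj_sq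
      linear_combination ((2 * (5 * (w.1:ℝ) - 13 * w.2) - (12 * w.1 - 31 * w.2))) * this

lemma phi_add_inv : φ + φ⁻¹ = √5 := by
  rw [inv_goldenRatio, ← sub_eq_add_neg]
  exact goldenRatio_sub_goldenConj

/-- the vectors of norm `± 1` -/
lemma unit_of_nrm {v : ℤ × ℤ} (h : |nrm v| = 1) : ∃ (j : ℤ) (c : ℝ), (c = 1 ∨ c = -1) ∧
    lin e₁ (toR v) = c * φ ^ j ∧ lin e₂ (toR v) = c * ψ ^ j := by
  have hv0 : v ≠ 0 := by
    rintro rfl
    norm_num [nrm] at h
  obtain ⟨hx0, hy0⟩ := lin_ne_zero v hv0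
  have hphi1 : 1 < φ := one_lt_goldenRatio
  have hphi0 : 0 < φ := goldenRatio_pos
  obtain ⟨j, hj1, hj2⟩ := exists_mem_Ico_zpow (abs_pos.2 hx0) hphi1
  obtain ⟨w, hw1, hw2⟩ := mul_zpow_vec v (-j)
  set X := lin e₁ (toR w) with hX
  set Y := lin e₂ (toR w) with hY
  have hXabs : |X| = |lin e₁ (toR v)| * φ ^ (-j) := by
    rw [hw1, abs_mul, abs_of_pos (zpow_pos hphi0 _)]
  have hj0 : 0 < φ ^ (-j) := zpow_pos hphi0 _
  have hjj : φ ^ j * φ ^ (-j) = 1 := by
    rw [← zpow_add₀ goldenRatio_ne_zero]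
    simp
  have h1X : 1 ≤ |X| := by
    rw [hXabs, ← hjj]
    exact mul_le_mul_of_nonneg_right hj1 hj0.le
  have hXphi : |X| < φ := by
    rw [hXabs]
    have : φ ^ (j + 1) * φ ^ (-j) = φ := by
      rw [← zpow_add₀ goldenRatio_ne_zero]
      simp
    calc _ < φ ^ (j + 1) * φ ^ (-j) := mul_lt_mul_of_pos_right hj2 hj0
      _ = φ := this
  have hXY : |X| * |Y| = 1 := by
    rw [← abs_mul, hw1, hw2]
    rw [show lin e₁ (toR v) * φ ^ (-j) * (lin e₂ (toR v) * ψ ^ (-j)) =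
      (lin e₁ (toR v) * lin e₂ (toR v)) * (φ * ψ) ^ (-j) by rw [mul_zpow]; ring, lin_mul_lin,
      phi_mul_psi, abs_mul, abs_zpow, abs_neg, abs_one, one_zpow, mul_one]
    exact_mod_cast h
  -- the coefficient of `φ` vanishes
  have h5 : (0 : ℝ) < √5 := by positivity
  have hdiff : X - Y = (2 * (w.2 : ℝ) - w.1) * √5 := by
    rw [hX, hY, lin_e₁, lin_e₂, ← goldenRatio_sub_goldenConj]
    unfold toR
    ring
  have hlt : |X - Y| < √5 := by
    have h6 : |X - Y| ≤ |X| + |Y| := abs_sub _ _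
    have h7 : |Y| = |X|⁻¹ := eq_inv_of_mul_eq_one_right hXY
    rw [h7] at h6
    refine lt_of_le_of_lt h6 ?_
    rw [← phi_add_inv]
    -- t + 1/t is increasing
    have hXpos : 0 < |X| := by linarith
    have h8 : φ + φ⁻¹ - (|X| + |X|⁻¹) = (φ - |X|) * (φ * |X| - 1) / (φ * |X|) := by
      field_simp
      ring
    have h9 : 0 < φ * |X| - 1 := by nlinarith
    have : 0 < (φ - |X|) * (φ * |X| - 1) / (φ * |X|) := by
      apply div_pos (mul_pos (by linarith) h9) (by positivity)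
    linarith
  have hb : 2 * w.2 - w.1 = 0 := by
    rw [hdiff, abs_mul, abs_of_pos h5] at hlt
    have h10 : |(2 * (w.2 : ℝ) - w.1)| < 1 := by
      by_contra hcon
      push Not at hcon
      nlinarith
    have h11 : |2 * w.2 - w.1| < 1 := by exact_mod_cast h10
    exact Int.abs_lt_one_iff.1 h11
  have hb' : 2 * (w.2 : ℝ) - w.1 = 0 := by exact_mod_cast hb
  have hXeqY : X = Y := by
    have : X - Y = 0 := by rw [hdiff, hb', zero_mul]
    linarith
  have hXX : |X| = 1 := by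
    rw [← hXeqY] at hXY
    nlinarith [abs_nonneg X]
  have hcX : X = 1 ∨ X = -1 := by
    rcases abs_choice X with h | h
    · left; rw [← h]; exact hXX
    · right; linarith
  refine ⟨j, X, hcX, ?_, ?_⟩
  · rw [hw1, mul_assoc, ← zpow_add₀ goldenRatio_ne_zero]
    simp
  · rw [hXeqY, hw2, mul_assoc, ← zpow_add₀ goldenConj_ne_zero]
    simp

/-- the primitive vectors on the sails -/
lemma unit_of_fraction {v : ℤ × ℤ} (hv : IsCoprime v.1 v.2) (hmem : toR v ∈ fraction e₁ e₂) :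
    ∃ (j : ℤ) (c : ℝ), (c = 1 ∨ c = -1) ∧
    lin e₁ (toR v) = c * φ ^ j ∧ lin e₂ (toR v) = c * ψ ^ j :=
  unit_of_nrm (nrm_of_fraction hv hmem)

end Q272.SA
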